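import Pool.Agent.Lib.MP_58cb87_lc_X.Tab

/-!
Check of the table of the costs, part 1 of 4.
-/

namespace Pool.Agent.MP_58cb87_lc.X

def listA : List ℕ := [0, 1, 2, 3, 4, 5, 6, 7, 8, 9]

theorem chkA_all : listA.all chkI = true := by decide +kernel

end Pool.Agent.MP_58cb87_lc.X
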