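import Pool.Agent.Lib.MP_58cb87_lc_X.Tab

/-!
Check of the table of the costs, part 2 of 4.
-/

namespace Pool.Agent.MP_58cb87_lc.X

def listB : List ℕ := [10, 11, 12, 13, 14, 15, 16, 17, 18, 19]

theorem chkB_all : listB.all chkI = true := by decide +kernel

end Pool.Agent.MP_58cb87_lc.X
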