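import Pool.Agent.Lib.MP_58cb87_lc_X.Tab

/-!
Check of the table of the costs, part 3 of 4.
-/

namespace Pool.Agent.MP_58cb87_lc.X

def listC : List ℕ := [20, 21, 22, 23, 24, 25, 26, 27, 28, 29]

theorem chkC_all : listC.all chkI = true := by decide +kernel

end Pool.Agent.MP_58cb87_lc.X
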