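import Pool.Agent.Lib.MP_58cb87_lc_X.Tab

/-!
Check of the table of the costs, part 4 of 4.
-/

namespace Pool.Agent.MP_58cb87_lc.X

def listD : List ℕ := [30, 31, 32, 33, 34, 35, 36, 37, 38, 39, 40, 41, 42, 43, 44, 45]

theorem chkD_all : listD.all chkI = true := by decide +kernel

end Pool.Agent.MP_58cb87_lc.X
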