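import Pool.Agent.Lib.MP_58cb87_lc.Tree

/-!
A potential on partial assignments bounds the cost of every query strategy from below.
-/

namespace Pool.Agent.MP_58cb87_lc.X

open Finset Function
open scoped Classical

variable {ι : Type} [Fintype ι] [DecidableEq ι]

/-- number of known positions -/
noncomputable def Kn (σ : ι → Option Bool) : ℝ := ∑ i, if σ i = none then (0 : ℝ) else 1

theorem Kn_update (σ : ι → Option Bool) (i : ι) (b : Bool) (h : σ i = none) :
    Kn (update σ i (some b)) = Kn σ + 1 := by
  unfold Kn
  have key : ∀ j, (if update σ i (some b) j = none then (0 : ℝ) else 1)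
      = (if σ j = none then (0 : ℝ) else 1) + if j = i then (1 : ℝ) else 0 := by
    intro j
    by_cases hj : j = i
    · subst hj; simp [h]
    · simp [hj]
  simp_rw [key]
  rw [Finset.sum_add_distrib]
  simp

theorem super_tree (Φ : (ι → Option Bool) → ℝ)
    (hs : ∀ σ i, σ i = none →
      Φ σ ≤ 1 + (Φ (update σ i (some false)) + Φ (update σ i (some true))) / 2) :
    ∀ (T : QTree ι) (σ : ι → Option Bool), NN ι * (Φ σ + Kn σ) ≤
      ∑ x : ι → Bool, (Φ (run T (comp σ x) σ) + Kn (run T (comp σ x) σ))
  | .stop, σ => by simp [run, NN_eq, mul_add]
  | .query i l r, σ => by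
      cases hσ : σ i with
      | some b =>
        have hc : ∀ x, comp σ x i = b := fun x => by simp [comp, hσ]
        have hu : update σ i (some b) = σ := by rw [← hσ]; simp
        simp only [run, hc, hu]
        cases b
        · simpa using super_tree Φ hs l σ
        · simpa using super_tree Φ hs r σ
      | none =>
        have hx : ∀ x, comp σ x i = x i := fun x => by simp [comp, hσ]
        have key : ∀ x : ι → Bool, (Φ (run (.query i l r) (comp σ x) σ)
            + Kn (run (.query i l r) (comp σ x) σ)) =
            if x i = true then
              (Φ (run r (comp (update σ i (some true)) x) (update σ i (some true)))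
                + Kn (run r (comp (update σ i (some true)) x) (update σ i (some true))))
            else (Φ (run l (comp (update σ i (some false)) x) (update σ i (some false)))
                + Kn (run l (comp (update σ i (some false)) x) (update σ i (some false)))) := by
          intro x
          rw [run, hx]
          split_ifs with h
          · rw [comp_update_of_none σ x i hσ, h]
          · have h' : x i = false := by simpa using h
            rw [comp_update_of_none σ x i hσ, h']
        simp_rw [key]
        rw [sum_ite_indep i
          (fun x => (Φ (run l (comp (update σ i (some false)) x) (update σ i (some false)))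
            + Kn (run l (comp (update σ i (some false)) x) (update σ i (some false)))))
          (fun x => (Φ (run r (comp (update σ i (some true)) x) (update σ i (some true)))
            + Kn (run r (comp (update σ i (some true)) x) (update σ i (some true)))))
          (fun x b => by simp only [comp_update_self]) (fun x b => by simp only [comp_update_self])]
        have h1 := super_tree Φ hs l (update σ i (some false))
        have h2 := super_tree Φ hs r (update σ i (some true))
        rw [Kn_update σ i _ hσ] at h1 h2
        have h3 := mul_le_mul_of_nonneg_left (hs σ i hσ) (NN_pos (ι := ι)).le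
        linarith

theorem cost_ge (Φ : (ι → Option Bool) → ℝ) (f : (ι → Bool) → Bool)
    (hs : ∀ σ i, σ i = none →
      Φ σ ≤ 1 + (Φ (update σ i (some false)) + Φ (update σ i (some true))) / 2)
    (hd : ∀ σ v, (∀ y : ι → Bool, (∀ i b, σ i = some b → y i = b) → f y = v) → Φ σ ≤ 0)
    (T : QTree ι) (hT : T.Computes f) : Φ (fun _ => none) ≤ cost T := by
  have h := super_tree Φ hs T fun _ => none
  have hK : Kn (fun _ : ι => (none : Option Bool)) = 0 := by simp [Kn]
  simp only [comp_none] at h
  rw [hK, add_zero, Finset.sum_add_distrib] at h
  have h1 : ∑ x : ι → Bool, Φ (run T x fun _ => none) ≤ 0 := by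
    refine Finset.sum_nonpos fun x _ => hd _ (f x) fun y hy => hT x y fun i hi => ?_
    refine hy i (x i) ?_
    rw [run_apply, if_pos hi]
  have h2 : ∑ x : ι → Bool, Kn (run T x fun _ => none) = NN ι * cost T := by
    rw [cost_eq, mul_div_cancel₀ _ NN_pos.ne']
    refine Finset.sum_congr rfl fun x _ => Finset.sum_congr rfl fun i _ => ?_
    rw [run_apply]
    by_cases hi : i ∈ T.queried x <;> simp [hi]
  rw [h2] at h
  have h3 : NN ι * Φ (fun _ => none) ≤ NN ι * cost T := by linarith
  exact le_of_mul_le_mul_left h3 NN_pos

end Pool.Agent.MP_58cb87_lc.X
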