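import Pool.Agent.Lib.MP_58cb87_lc_X.Val
import Pool.Agent.Lib.MP_58cb87_lc_X.Super

/-!
The potentials on partial assignments of 3, 9 and 27 bits, and the lower bounds.
-/

namespace Pool.Agent.MP_58cb87_lc.X

open Finset Function

def bl {α : Type} (k : ℕ) (σ : Fin (3 ^ (k + 1)) → α) (j : Fin 3) : Fin (3 ^ k) → α :=
  fun i => σ (blockPos k j i)

theorem bl_same {α : Type} (k : ℕ) (s : Fin (3 ^ (k + 1)) → α) (j : Fin 3)
    (i : Fin (3 ^ k)) (t : α) :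
    bl k (update s (blockPos k j i) t) j = update (bl k s j) i t :=
  update_block_same k s j i t

theorem bl_ne {α : Type} (k : ℕ) (s : Fin (3 ^ (k + 1)) → α) (j j' : Fin 3)
    (hj : j' ≠ j) (i : Fin (3 ^ k)) (t : α) :
    bl k (update s (blockPos k j i) t) j' = bl k s j' :=
  update_block_ne k s j j' hj i t

theorem three (j : Fin 3) : j = 0 ∨ j = 1 ∨ j = 2 := by
  revert j; decide

def c0 (σ : Fin (3 ^ 0) → Option Bool) : Option Bool := σ ⟨0, Nat.one_pos⟩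

def g1 (σ : Fin (3 ^ 1) → Option Bool) : ℕ := c1 (c0 (bl 0 σ 0)) (c0 (bl 0 σ 1)) (c0 (bl 0 σ 2))

def g2 (σ : Fin (3 ^ 2) → Option Bool) : ℕ := c2 (g1 (bl 1 σ 0)) (g1 (bl 1 σ 1)) (g1 (bl 1 σ 2))

theorem g1_lt (σ : Fin (3 ^ 1) → Option Bool) : g1 σ < 6 := c1_lt _ _ _

theorem g2_lt (σ : Fin (3 ^ 2) → Option Bool) : g2 σ < 46 :=
  (c2_all (g1_lt _) (g1_lt _) (g1_lt _)).1

theorem c0_update (σ : Fin (3 ^ 0) → Option Bool) (i : Fin (3 ^ 0)) (t : Option Bool) :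
    c0 (update σ i t) = t := by
  have : i = ⟨0, Nat.one_pos⟩ := Fin.ext (Nat.lt_one_iff.1 (show i.1 < 1 from i.2))
  subst this
  simp [c0]

theorem c0_none (σ : Fin (3 ^ 0) → Option Bool) (i : Fin (3 ^ 0)) (h : σ i = none) :
    c0 σ = none := by
  have : i = ⟨0, Nat.one_pos⟩ := Fin.ext (Nat.lt_one_iff.1 (show i.1 < 1 from i.2))
  subst this
  exact h

theorem g1_tr (σ : Fin (3 ^ 1) → Option Bool) (p : Fin (3 ^ 1)) (h : σ p = none) :
    Tr M1 (g1 σ) (g1 (update σ p (some false))) (g1 (update σ p (some true))) := by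
  obtain ⟨j, i, rfl⟩ := exists_blockPos 0 p
  have h0 : c0 (bl 0 σ j) = none := c0_none _ i h
  have hs : ∀ t : Option Bool, c0 (bl 0 (update σ (blockPos 0 j i) t) j) = t := fun t => by
    rw [bl_same, c0_update]
  rcases three j with rfl | rfl | rfl
  · unfold g1
    rw [hs, hs, h0, bl_ne 0 σ 0 1 (by decide), bl_ne 0 σ 0 2 (by decide),
      bl_ne 0 σ 0 1 (by decide), bl_ne 0 σ 0 2 (by decide)]
    exact c1_tr _ _
  · unfold g1
    rw [hs, hs, h0, bl_ne 0 σ 1 0 (by decide), bl_ne 0 σ 1 2 (by decide),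
      bl_ne 0 σ 1 0 (by decide), bl_ne 0 σ 1 2 (by decide), c1_sw _ none, c1_sw _ (some false),
      c1_sw _ (some true)]
    exact c1_tr _ _
  · unfold g1
    rw [hs, hs, h0, bl_ne 0 σ 2 0 (by decide), bl_ne 0 σ 2 1 (by decide),
      bl_ne 0 σ 2 0 (by decide), bl_ne 0 σ 2 1 (by decide), c1_sw' _ _ none,
      c1_sw' _ _ (some false), c1_sw' _ _ (some true), c1_sw _ none, c1_sw _ (some false),
      c1_sw _ (some true)]
    exact c1_tr _ _

theorem c2_sw {x y z : ℕ} (hx : x < 6) (hy : y < 6) (hz : z < 6) : c2 x y z = c2 y x z :=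
  (c2_all hx hy hz).2.1

theorem c2_sw' {x y z : ℕ} (hx : x < 6) (hy : y < 6) (hz : z < 6) : c2 x y z = c2 x z y :=
  (c2_all hx hy hz).2.2.1

theorem g2_tr (σ : Fin (3 ^ 2) → Option Bool) (p : Fin (3 ^ 2)) (h : σ p = none) :
    Tr M2 (g2 σ) (g2 (update σ p (some false))) (g2 (update σ p (some true))) := by
  obtain ⟨j, i, rfl⟩ := exists_blockPos 1 p
  have ht := g1_tr (bl 1 σ j) i h
  rcases three j with rfl | rfl | rfl
  · unfold g2
    rw [bl_same, bl_same, bl_ne 1 σ 0 1 (by decide), bl_ne 1 σ 0 2 (by decide),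
      bl_ne 1 σ 0 1 (by decide), bl_ne 1 σ 0 2 (by decide)]
    exact c2_tr (g1_lt _) (g1_lt _) (g1_lt _) ht
  · unfold g2
    rw [bl_same, bl_same, bl_ne 1 σ 1 0 (by decide), bl_ne 1 σ 1 2 (by decide),
      bl_ne 1 σ 1 0 (by decide), bl_ne 1 σ 1 2 (by decide),
      c2_sw (g1_lt (bl 1 σ 0)) (g1_lt (bl 1 σ 1)) (g1_lt _),
      c2_sw (g1_lt (bl 1 σ 0)) (g1_lt (update (bl 1 σ 1) i (some false))) (g1_lt _),
      c2_sw (g1_lt (bl 1 σ 0)) (g1_lt (update (bl 1 σ 1) i (some true))) (g1_lt _)]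
    exact c2_tr (g1_lt _) (g1_lt _) (g1_lt _) ht
  · unfold g2
    rw [bl_same, bl_same, bl_ne 1 σ 2 0 (by decide), bl_ne 1 σ 2 1 (by decide),
      bl_ne 1 σ 2 0 (by decide), bl_ne 1 σ 2 1 (by decide),
      c2_sw' (g1_lt (bl 1 σ 0)) (g1_lt (bl 1 σ 1)) (g1_lt (bl 1 σ 2)),
      c2_sw (g1_lt (bl 1 σ 0)) (g1_lt (bl 1 σ 2)) (g1_lt (bl 1 σ 1)),
      c2_sw' (g1_lt (bl 1 σ 0)) (g1_lt (bl 1 σ 1)) (g1_lt (update (bl 1 σ 2) i (some false))),
      c2_sw (g1_lt (bl 1 σ 0)) (g1_lt (update (bl 1 σ 2) i (some false))) (g1_lt (bl 1 σ 1)),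
      c2_sw' (g1_lt (bl 1 σ 0)) (g1_lt (bl 1 σ 1)) (g1_lt (update (bl 1 σ 2) i (some true))),
      c2_sw (g1_lt (bl 1 σ 0)) (g1_lt (update (bl 1 σ 2) i (some true))) (g1_lt (bl 1 σ 1))]
    exact c2_tr (g1_lt _) (g1_lt _) (g1_lt _) ht

/-! ### the filled inputs -/

def fill {ι : Type} (b : Bool) (σ : ι → Option Bool) : ι → Bool := fun i => (σ i).getD b

theorem fill_spec {ι : Type} (b : Bool) (σ : ι → Option Bool) (i : ι) (c : Bool)
    (h : σ i = some c) : fill b σ i = c := by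
  simp [fill, h]

theorem fill1 (σ : Fin (3 ^ 1) → Option Bool) :
    iterMaj 1 (fill true σ) = hi1 (g1 σ) ∧ iterMaj 1 (fill false σ) = lo1 (g1 σ) :=
  hi1_c1 _ _ _

theorem fill2 (σ : Fin (3 ^ 2) → Option Bool) :
    iterMaj 2 (fill true σ) = hi2 (g2 σ) ∧ iterMaj 2 (fill false σ) = lo2 (g2 σ) := by
  have h := hi2_c2 (g1_lt (bl 1 σ 0)) (g1_lt (bl 1 σ 1)) (g1_lt (bl 1 σ 2))
  have h0 := fill1 (bl 1 σ 0)
  have h1 := fill1 (bl 1 σ 1)
  have h2 := fill1 (bl 1 σ 2)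
  rw [← h0.1, ← h1.1, ← h2.1, ← h0.2, ← h1.2, ← h2.2] at h
  exact h

/-! ### one level -/

def v1 (c : ℕ) : ℕ := [5, 3, 3, 2, 0, 0].getD c 0

def chkD : Bool :=
  (List.range 6).all fun x => (M1 x).all fun p => Nat.ble (2 * v1 x) (4 + v1 p.1 + v1 p.2)

theorem chkD_ok : chkD = true := by decide +kernel

theorem v1_tr {x a b : ℕ} (hx : x < 6) (h : Tr M1 x a b) : 2 * v1 x ≤ 4 + v1 a + v1 b := by
  rcases h with ⟨rfl, rfl⟩ | h
  · omega
  · have h1 := forall_range chkD_ok x hx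
    rw [List.all_eq_true] at h1
    exact Nat.le_of_ble_eq_true (h1 _ h)

theorem cost1 (T : QTree (Fin (3 ^ 1))) (hT : T.Computes (iterMaj 1)) : 5 / 2 ≤ cost T := by
  have h := cost_ge (fun σ => (v1 (g1 σ) : ℝ) / 2) (iterMaj 1) ?_ ?_ T hT
  · have e : v1 (g1 fun _ => none) = 5 := by decide
    simp only [e] at h
    exact_mod_cast h
  · intro σ i hi
    have h := v1_tr (g1_lt σ) (g1_tr σ i hi)
    have h' : (2 : ℝ) * v1 (g1 σ) ≤ 4 + v1 (g1 (update σ i (some false)))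
        + v1 (g1 (update σ i (some true))) := by exact_mod_cast h
    linarith
  · intro σ v hv
    have e1 := hv _ (fun i b hb => fill_spec true σ i b hb)
    have e2 := hv _ (fun i b hb => fill_spec false σ i b hb)
    rw [(fill1 σ).1] at e1
    rw [(fill1 σ).2] at e2
    have key : ∀ c < 6, hi1 c = lo1 c → v1 c = 0 := by decide
    simp only [key _ (g1_lt σ) (e1.trans e2.symm)]
    norm_num

/-! ### two levels -/

def chkE : Bool :=
  (List.range 46).all fun x => (M2 x).all fun p => Nat.ble (2 * w2 x) (128 + w2 p.1 + w2 p.2)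

theorem chkE_ok : chkE = true := by decide +kernel

theorem w2_tr {x a b : ℕ} (hx : x < 46) (h : Tr M2 x a b) : 2 * w2 x ≤ 128 + w2 a + w2 b := by
  rcases h with ⟨rfl, rfl⟩ | h
  · omega
  · have h1 := forall_range chkE_ok x hx
    rw [List.all_eq_true] at h1
    exact Nat.le_of_ble_eq_true (h1 _ h)

theorem cost2 (T : QTree (Fin (3 ^ 2))) (hT : T.Computes (iterMaj 2)) : 393 / 64 ≤ cost T := by
  have h := cost_ge (fun σ => (w2 (g2 σ) : ℝ) / 64) (iterMaj 2) ?_ ?_ T hT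
  · have e : w2 (g2 fun _ => none) = 393 := by decide +kernel
    simp only [e] at h
    exact_mod_cast h
  · intro σ i hi
    have h := w2_tr (g2_lt σ) (g2_tr σ i hi)
    have h' : (2 : ℝ) * w2 (g2 σ) ≤ 128 + w2 (g2 (update σ i (some false)))
        + w2 (g2 (update σ i (some true))) := by exact_mod_cast h
    linarith
  · intro σ v hv
    have e1 := hv _ (fun i b hb => fill_spec true σ i b hb)
    have e2 := hv _ (fun i b hb => fill_spec false σ i b hb)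
    rw [(fill2 σ).1] at e1
    rw [(fill2 σ).2] at e2
    have key : ∀ c < 46, hi2 c = lo2 c → w2 c = 0 := by decide +kernel
    simp only [key _ (g2_lt σ) (e1.trans e2.symm)]
    norm_num

/-! ### three levels -/

noncomputable def V3 (σ : Fin (3 ^ 3) → Option Bool) : ℝ :=
  (v3 (g2 (bl 2 σ 0)) (g2 (bl 2 σ 1)) (g2 (bl 2 σ 2)) : ℝ) / 1048576

theorem V3_step (σ : Fin (3 ^ 3) → Option Bool) (p : Fin (3 ^ 3)) (h : σ p = none) :
    V3 σ ≤ 1 + (V3 (update σ p (some false)) + V3 (update σ p (some true))) / 2 := by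
  obtain ⟨j, i, rfl⟩ := exists_blockPos 2 p
  have ht := g2_tr (bl 2 σ j) i h
  unfold V3
  rcases three j with rfl | rfl | rfl
  · rw [bl_same, bl_same, bl_ne 2 σ 0 1 (by decide), bl_ne 2 σ 0 2 (by decide),
      bl_ne 2 σ 0 1 (by decide), bl_ne 2 σ 0 2 (by decide)]
    have h1 := v3_tr (g2_lt _) (g2_lt (bl 2 σ 1)) (g2_lt (bl 2 σ 2)) ht
    generalize v3 (g2 (bl 2 σ 0)) (g2 (bl 2 σ 1)) (g2 (bl 2 σ 2)) = A at *
    generalize v3 (g2 (update (bl 2 σ 0) i (some false))) (g2 (bl 2 σ 1)) (g2 (bl 2 σ 2)) = B at *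
    generalize v3 (g2 (update (bl 2 σ 0) i (some true))) (g2 (bl 2 σ 1)) (g2 (bl 2 σ 2)) = C at *
    have h2 : (2 : ℝ) * A ≤ 2097152 + B + C := by exact_mod_cast h1
    linarith
  · rw [bl_same, bl_same, bl_ne 2 σ 1 0 (by decide), bl_ne 2 σ 1 2 (by decide),
      bl_ne 2 σ 1 0 (by decide), bl_ne 2 σ 1 2 (by decide), 
      v3_sw (g2 (bl 2 σ 0)) (g2 (bl 2 σ 1)),
      v3_sw (g2 (bl 2 σ 0)) (g2 (update (bl 2 σ 1) i (some false))),
      v3_sw (g2 (bl 2 σ 0)) (g2 (update (bl 2 σ 1) i (some true)))]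
    have h1 := v3_tr (g2_lt _) (g2_lt (bl 2 σ 0)) (g2_lt (bl 2 σ 2)) ht
    generalize v3 (g2 (bl 2 σ 1)) (g2 (bl 2 σ 0)) (g2 (bl 2 σ 2)) = A at *
    generalize v3 (g2 (update (bl 2 σ 1) i (some false))) (g2 (bl 2 σ 0)) (g2 (bl 2 σ 2)) = B at *
    generalize v3 (g2 (update (bl 2 σ 1) i (some true))) (g2 (bl 2 σ 0)) (g2 (bl 2 σ 2)) = C at *
    have h2 : (2 : ℝ) * A ≤ 2097152 + B + C := by exact_mod_cast h1
    linarith
  · rw [bl_same, bl_same, bl_ne 2 σ 2 0 (by decide), bl_ne 2 σ 2 1 (by decide),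
      bl_ne 2 σ 2 0 (by decide), bl_ne 2 σ 2 1 (by decide), 
      v3_sw' (g2 (bl 2 σ 0)) (g2 (bl 2 σ 1)) (g2 (bl 2 σ 2)),
      v3_sw (g2 (bl 2 σ 0)) (g2 (bl 2 σ 2)),
      v3_sw' (g2 (bl 2 σ 0)) (g2 (bl 2 σ 1)) (g2 (update (bl 2 σ 2) i (some false))),
      v3_sw (g2 (bl 2 σ 0)) (g2 (update (bl 2 σ 2) i (some false))),
      v3_sw' (g2 (bl 2 σ 0)) (g2 (bl 2 σ 1)) (g2 (update (bl 2 σ 2) i (some true))),
      v3_sw (g2 (bl 2 σ 0)) (g2 (update (bl 2 σ 2) i (some true)))]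
    have h1 := v3_tr (g2_lt _) (g2_lt (bl 2 σ 0)) (g2_lt (bl 2 σ 1)) ht
    generalize v3 (g2 (bl 2 σ 2)) (g2 (bl 2 σ 0)) (g2 (bl 2 σ 1)) = A at *
    generalize v3 (g2 (update (bl 2 σ 2) i (some false))) (g2 (bl 2 σ 0)) (g2 (bl 2 σ 1)) = B at *
    generalize v3 (g2 (update (bl 2 σ 2) i (some true))) (g2 (bl 2 σ 0)) (g2 (bl 2 σ 1)) = C at *
    have h2 : (2 : ℝ) * A ≤ 2097152 + B + C := by exact_mod_cast h1
    linarith

theorem fill3 (b : Bool) (σ : Fin (3 ^ 3) → Option Bool) :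
    iterMaj 3 (fill b σ) = maj3 (iterMaj 2 (fill b (bl 2 σ 0))) (iterMaj 2 (fill b (bl 2 σ 1)))
      (iterMaj 2 (fill b (bl 2 σ 2))) := rfl

theorem V3_none : V3 (fun _ => none) = 15796051 / 1048576 := by
  have e : v3 (g2 (bl 2 (fun _ => none) 0)) (g2 (bl 2 (fun _ => none) 1))
      (g2 (bl 2 (fun _ => none) 2)) = 15796051 := by decide +kernel
  unfold V3
  rw [e]
  norm_num

theorem cost3 (T : QTree (Fin (3 ^ 3))) (hT : T.Computes (iterMaj 3)) :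
    15796051 / 1048576 ≤ cost T := by
  have h := cost_ge V3 (iterMaj 3) V3_step ?_ T hT
  · rwa [V3_none] at h
  · intro σ v hv
    have e1 := hv _ (fun i b hb => fill_spec true σ i b hb)
    have e2 := hv _ (fun i b hb => fill_spec false σ i b hb)
    rw [fill3, (fill2 _).1, (fill2 _).1, (fill2 _).1] at e1
    rw [fill3, (fill2 _).2, (fill2 _).2, (fill2 _).2] at e2
    have h0 := v3_zero (g2_lt _) (g2_lt _) (g2_lt _) (e1.trans e2.symm)
    unfold V3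
    rw [h0]
    norm_num

end Pool.Agent.MP_58cb87_lc.X
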