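import Pool.Agent.Lib.MP_58cb87_lc.Upper

/-!
Optimal query strategies for one and two levels, as tables of abstract states.
-/

namespace Pool.Agent.MP_58cb87_lc.St.Small

open Pool.Agent.MP_58cb87_lc.St

def u : St := .unk
def t : St := .val true
def f : St := .val false

def table1 : List Entry := [
  ⟨(.node f t u), [.d2], .known, .known, 1048576⟩,
  ⟨(.node f u u), [.d1], .known, .tab 0, 1572864⟩,
  ⟨(.node u u u), [.d0], .tab 0, .ntab 0, 2621440⟩]

def table2 : List Entry := [
  ⟨(.node f t (.node f t u)), [.d2, .d2], .known, .known, 1048576⟩,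
  ⟨(.node f t (.node f u u)), [.d2, .d1], .known, .tab 0, 1572864⟩,
  ⟨(.node f t (.node u u u)), [.d2, .d0], .tab 0, .ntab 0, 2621440⟩,
  ⟨(.node f (.node f t u) (.node u u u)), [.d1, .d2], .known, .tab 0, 2359296⟩,
  ⟨(.node f (.node f u u) (.node u u u)), [.d1, .d1], .known, .tab 0, 2228224⟩,
  ⟨(.node t (.node f t u) (.node f u u)), [.d1, .d2], .tab 3, .known, 1835008⟩,
  ⟨(.node t (.node f u u) (.node f u u)), [.d1, .d1], .tab 4, .tab 0, 2752512⟩,
  ⟨(.node f (.node f u u) (.node t u u)), [.d1, .d1], .known, .ntab 1, 1966080⟩,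
  ⟨(.node t (.node f u u) (.node u u u)), [.d2, .d0], .tab 1, .ntab 0, 3407872⟩,
  ⟨(.node (.node f t u) (.node f u u) (.node u u u)), [.d0, .d2], .tab 4, .tab 0, 3866624⟩,
  ⟨(.node (.node f u u) (.node f u u) (.node u u u)), [.d0, .d1], .tab 5, .tab 0, 4096000⟩,
  ⟨(.node (.node f t u) (.node f u u) (.node t u u)), [.d0, .d2], .tab 3, .ntab 3, 3014656⟩,
  ⟨(.node (.node f u u) (.node f u u) (.node t u u)), [.d0, .d1], .tab 4, .tab 0, 3538944⟩,
  ⟨(.node (.node f u u) (.node t u u) (.node u u u)), [.d2, .d0], .tab 0, .ntab 0, 4587520⟩,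
  ⟨(.node (.node f u u) (.node u u u) (.node u u u)), [.d1, .d0], .tab 3, .tab 0, 5390336⟩,
  ⟨(.node (.node u u u) (.node u u u) (.node u u u)), [.d0, .d0], .tab 0, .ntab 0, 6438912⟩]

theorem table1_ok : checkAll table1 1 2621440 = true := by decide +kernel

theorem table2_ok : checkAll table2 2 6438912 = true := by decide +kernel

theorem revealment_one : revealment (iterMaj 1) ≤ 5 / 6 := by
  have h := checkAll_good table1 1 2621440 table1_ok
  have := St.revealment_le_of_ach 1 _ h
  norm_num [Den] at this ⊢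
  exact this

theorem revealment_two : revealment (iterMaj 2) ≤ 131 / 192 := by
  have h := checkAll_good table2 2 6438912 table2_ok
  have := St.revealment_le_of_ach 2 _ h
  norm_num [Den] at this ⊢
  exact this

end Pool.Agent.MP_58cb87_lc.St.Small
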