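import Pool.Agent.Lib.MP_58cb87_lc_X.ChkA
import Pool.Agent.Lib.MP_58cb87_lc_X.ChkB
import Pool.Agent.Lib.MP_58cb87_lc_X.ChkC
import Pool.Agent.Lib.MP_58cb87_lc_X.ChkD
import Pool.Agent.Lib.MP_58cb87_lc.Blocks

/-!
The potentials on partial assignments of 3, 9 and 27 bits, and the lower bounds.
-/

namespace Pool.Agent.MP_58cb87_lc.X

open Finset Function

/-! ### finite checks -/

def nT : Option Bool → ℕ
  | some true => 1
  | _ => 0

def nF : Option Bool → ℕ
  | some false => 1
  | _ => 0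

/-- number of the state of a gate with three inputs -/
def c1 (a b c : Option Bool) : ℕ :=
  if 2 ≤ nT a + nT b + nT c then 4
  else if 2 ≤ nF a + nF b + nF c then 5
  else nT a + nT b + nT c + 2 * (nF a + nF b + nF c)

/-- transition from `s` to `a` (bit false) and `b` (bit true) -/
def Tr (M : ℕ → List (ℕ × ℕ)) (s a b : ℕ) : Prop := (a = s ∧ b = s) ∨ (a, b) ∈ M s

theorem tr_of_trb {M : ℕ → List (ℕ × ℕ)} {s a b : ℕ} (h : trb M s a b = true) : Tr M s a b := by
  rw [trb, Bool.or_eq_true, Bool.and_eq_true, List.any_eq_true] at h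
  rcases h with ⟨h1, h2⟩ | ⟨p, hp, h⟩
  · exact Or.inl ⟨Nat.eq_of_beq_eq_true h1, Nat.eq_of_beq_eq_true h2⟩
  · rw [Bool.and_eq_true] at h
    have e1 := Nat.eq_of_beq_eq_true h.1
    have e2 := Nat.eq_of_beq_eq_true h.2
    refine Or.inr ?_
    rw [← e1, ← e2]
    exact hp

theorem c1_lt (a b c : Option Bool) : c1 a b c < 6 := by
  rcases a with _ | _ | _ <;> rcases b with _ | _ | _ <;> rcases c with _ | _ | _ <;> decide

theorem c1_sw (a b c : Option Bool) : c1 a b c = c1 b a c := by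
  unfold c1
  rw [add_comm (nT a), add_comm (nF a)]

theorem c1_sw' (a b c : Option Bool) : c1 a b c = c1 a c b := by
  unfold c1
  rw [add_right_comm (nT a), add_right_comm (nF a)]

theorem c1_tr (b c : Option Bool) :
    Tr M1 (c1 none b c) (c1 (some false) b c) (c1 (some true) b c) := by
  apply tr_of_trb
  rcases b with _ | _ | _ <;> rcases c with _ | _ | _ <;> decide

theorem forall_range {n : ℕ} {p : ℕ → Bool} (h : (List.range n).all p = true) (i : ℕ)
    (hi : i < n) : p i = true := List.all_eq_true.1 h i (List.mem_range.2 hi)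

def chkA : Bool :=
  (List.range 6).all fun x => (List.range 6).all fun y => (List.range 6).all fun z =>
    Nat.blt (c2 x y z) 46 && (Nat.beq (c2 x y z) (c2 y x z) && (Nat.beq (c2 x y z) (c2 x z y) &&
      (M1 x).all fun p => trb M2 (c2 x y z) (c2 p.1 y z) (c2 p.2 y z)))

theorem chkA_ok : chkA = true := by decide +kernel

theorem c2_all {x y z : ℕ} (hx : x < 6) (hy : y < 6) (hz : z < 6) :
    c2 x y z < 46 ∧ c2 x y z = c2 y x z ∧ c2 x y z = c2 x z y ∧
      ∀ p ∈ M1 x, Tr M2 (c2 x y z) (c2 p.1 y z) (c2 p.2 y z) := by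
  have h := forall_range (forall_range (forall_range chkA_ok x hx) y hy) z hz
  rw [Bool.and_eq_true, Bool.and_eq_true, Bool.and_eq_true, List.all_eq_true] at h
  exact ⟨Nat.lt_of_lt_of_le (Nat.lt_of_succ_le (Nat.le_of_ble_eq_true h.1)) le_rfl,
    Nat.eq_of_beq_eq_true h.2.1, Nat.eq_of_beq_eq_true h.2.2.1,
    fun p hp => tr_of_trb (h.2.2.2 p hp)⟩

theorem c2_tr {x a b y z : ℕ} (hx : x < 6) (hy : y < 6) (hz : z < 6) (h : Tr M1 x a b) :
    Tr M2 (c2 x y z) (c2 a y z) (c2 b y z) := by
  rcases h with ⟨rfl, rfl⟩ | h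
  · exact Or.inl ⟨rfl, rfl⟩
  · exact (c2_all hx hy hz).2.2.2 _ h

/-- is the value of the gate still possibly `true`? -/
def hi1 (c : ℕ) : Bool := !Nat.beq c 5
def lo1 (c : ℕ) : Bool := Nat.beq c 4
def hi2 (c : ℕ) : Bool := !Nat.beq c 45
def lo2 (c : ℕ) : Bool := Nat.beq c 44

theorem hi1_c1 (a b c : Option Bool) :
    maj3 (a.getD true) (b.getD true) (c.getD true) = hi1 (c1 a b c) ∧
      maj3 (a.getD false) (b.getD false) (c.getD false) = lo1 (c1 a b c) := by
  rcases a with _ | _ | _ <;> rcases b with _ | _ | _ <;> rcases c with _ | _ | _ <;> decide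

def beqB (a b : Bool) : Bool := cond a b (!b)

theorem eq_of_beqB {a b : Bool} (h : beqB a b = true) : a = b := by
  cases a <;> cases b <;> first | rfl | exact absurd h (by decide)

def chkB : Bool :=
  (List.range 6).all fun x => (List.range 6).all fun y => (List.range 6).all fun z =>
    beqB (maj3 (hi1 x) (hi1 y) (hi1 z)) (hi2 (c2 x y z)) &&
      beqB (maj3 (lo1 x) (lo1 y) (lo1 z)) (lo2 (c2 x y z))

theorem chkB_ok : chkB = true := by decide +kernel

theorem hi2_c2 {x y z : ℕ} (hx : x < 6) (hy : y < 6) (hz : z < 6) :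
    maj3 (hi1 x) (hi1 y) (hi1 z) = hi2 (c2 x y z) ∧
      maj3 (lo1 x) (lo1 y) (lo1 z) = lo2 (c2 x y z) := by
  have h := forall_range (forall_range (forall_range chkB_ok x hx) y hy) z hz
  rw [Bool.and_eq_true] at h
  exact ⟨eq_of_beqB h.1, eq_of_beqB h.2⟩

/-! ### the table of the costs -/

theorem mn_eq (a b : ℕ) : mn a b = min a b := by
  unfold mn
  cases h : Nat.ble a b
  · have : ¬ a ≤ b := fun h' => by
      have := Nat.ble_eq_true_of_le h'
      rw [h] at this
      exact absurd this (by decide)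
    simp only [cond_false]; omega
  · have := Nat.le_of_ble_eq_true h
    simp only [cond_true]; omega

theorem mx_eq (a b : ℕ) : mx a b = max a b := by
  unfold mx
  cases h : Nat.ble a b
  · have : ¬ a ≤ b := fun h' => by
      have := Nat.ble_eq_true_of_le h'
      rw [h] at this
      exact absurd this (by decide)
    simp only [cond_false]; omega
  · have := Nat.le_of_ble_eq_true h
    simp only [cond_true]; omega

theorem v3_sw (i j k : ℕ) : v3 i j k = v3 j i k := by
  unfold v3
  rw [mn_eq, mn_eq, mx_eq, mx_eq, mn_eq, mn_eq, mx_eq, mx_eq, min_left_comm, max_left_comm,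
    add_comm i j]

theorem v3_sw' (i j k : ℕ) : v3 i j k = v3 i k j := by
  unfold v3
  rw [mn_eq, mn_eq, mx_eq, mx_eq, mn_eq, mn_eq, mx_eq, mx_eq, min_comm j k, max_comm j k,
    add_right_comm i j k]

theorem chkI_ok (i : ℕ) (hi : i < 46) : chkI i = true := by
  have h : ∀ i < 46, i ∈ listA ∨ i ∈ listB ∨ i ∈ listC ∨ i ∈ listD := by decide +kernel
  rcases h i hi with h | h | h | h
  · exact List.all_eq_true.1 chkA_all i h
  · exact List.all_eq_true.1 chkB_all i h
  · exact List.all_eq_true.1 chkC_all i h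
  · exact List.all_eq_true.1 chkD_all i h

theorem v3_mv {i j k : ℕ} (hi : i < 46) (hj : j < 46) (hk : k < 46) (p : ℕ × ℕ)
    (hp : p ∈ M2 i) : 2 * v3 i j k ≤ 2097152 + v3 p.1 j k + v3 p.2 j k := by
  have key : ∀ j k : ℕ, j ≤ k → k < 46 →
      2 * v3 i j k ≤ 2097152 + v3 p.1 j k + v3 p.2 j k := by
    intro j k hjk hk
    have h1 := chkI_ok i hi
    rw [chkI, List.all_eq_true] at h1
    exact Nat.le_of_ble_eq_true
      (forall_range (forall_range (h1 p hp) k hk) j (Nat.lt_succ_of_le hjk))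
  rcases le_total j k with h | h
  · exact key j k h hk
  · rw [v3_sw' i, v3_sw' p.1, v3_sw' p.2]
    exact key k j h hj

theorem v3_tr {i a b j k : ℕ} (hi : i < 46) (hj : j < 46) (hk : k < 46) (h : Tr M2 i a b) :
    2 * v3 i j k ≤ 2097152 + v3 a j k + v3 b j k := by
  rcases h with ⟨rfl, rfl⟩ | h
  · omega
  · exact v3_mv hi hj hk _ h

def chkC : Bool :=
  (List.range 46).all fun k => Nat.beq (v3 44 44 k) 0 && Nat.beq (v3 45 45 k) 0

theorem chkC_ok : chkC = true := by decide +kernel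

theorem beq_self' {n : ℕ} {m : ℕ} (h : Nat.beq n m = true) : n = m := Nat.eq_of_beq_eq_true h

theorem v3_zero {i j k : ℕ} (hi : i < 46) (hj : j < 46) (hk : k < 46)
    (h : maj3 (hi2 i) (hi2 j) (hi2 k) = maj3 (lo2 i) (lo2 j) (lo2 k)) : v3 i j k = 0 := by
  have hC : ∀ k < 46, v3 44 44 k = 0 ∧ v3 45 45 k = 0 := by
    intro k hk
    have := forall_range chkC_ok k hk
    rw [Bool.and_eq_true] at this
    exact ⟨Nat.eq_of_beq_eq_true this.1, Nat.eq_of_beq_eq_true this.2⟩
  have hh : ∀ c, hi2 c = false ↔ c = 45 := by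
    intro c
    unfold hi2
    rw [Bool.not_eq_false']
    exact ⟨Nat.eq_of_beq_eq_true, fun h => by rw [h]; decide⟩
  have hl : ∀ c, lo2 c = true ↔ c = 44 := by
    intro c
    unfold lo2
    exact ⟨Nat.eq_of_beq_eq_true, fun h => by rw [h]; decide⟩
  have hi' := hh i; have hj' := hh j; have hk' := hh k
  have li' := hl i; have lj' := hl j; have lk' := hl k
  have c1 : lo2 i = true → hi2 i = true := fun h => by
    rw [li'] at h; subst h; decide
  have c2 : lo2 j = true → hi2 j = true := fun h => by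
    rw [lj'] at h; subst h; decide
  have c3 : lo2 k = true → hi2 k = true := fun h => by
    rw [lk'] at h; subst h; decide
  generalize hi2 i = a at *
  generalize hi2 j = b at *
  generalize hi2 k = c at *
  generalize lo2 i = a' at *
  generalize lo2 j = b' at *
  generalize lo2 k = c' at *
  have f1 : ∀ x y, x = 45 → y = 45 → x < 46 → ∀ z < 46, v3 x y z = 0 := by
    rintro x y rfl rfl _ z hz; exact (hC z hz).2
  have f2 : ∀ x y, x = 44 → y = 44 → x < 46 → ∀ z < 46, v3 x y z = 0 := by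
    rintro x y rfl rfl _ z hz; exact (hC z hz).1
  cases a <;> cases b <;> cases c <;> cases a' <;> cases b' <;> cases c' <;>
    first
    | exact absurd h (by decide)
    | exact absurd (c1 rfl) (by decide)
    | exact absurd (c2 rfl) (by decide)
    | exact absurd (c3 rfl) (by decide)
    | exact f1 i j (hi'.1 rfl) (hj'.1 rfl) hi k hk
    | exact f2 i j (li'.1 rfl) (lj'.1 rfl) hi k hk
    | (rw [v3_sw']; exact f1 i k (hi'.1 rfl) (hk'.1 rfl) hi j hj)
    | (rw [v3_sw']; exact f2 i k (li'.1 rfl) (lk'.1 rfl) hi j hj)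
    | (rw [v3_sw, v3_sw']; exact f1 j k (hj'.1 rfl) (hk'.1 rfl) hj i hi)
    | (rw [v3_sw, v3_sw']; exact f2 j k (lj'.1 rfl) (lk'.1 rfl) hj i hi)

end Pool.Agent.MP_58cb87_lc.X
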